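import Pool.Agent.ZCyc.Curve

/-!
# Zero-cycles on products of superelliptic curves: twisted symmetrisations

The zero-cycles used in the vanishing theorem for products of several superelliptic curves and in
the theorem on the self-products of the quotients of `C ^ d`.
-/

namespace Pool.Agent.ZVois

open Pool.Agent.ZCyc

universe u w

section Tw

variable {k : Type u} [Field k] {K : Type} [Fintype K] [DecidableEq K] {L : K → Type u}
  [∀ c, Field (L c)] [∀ c, Algebra k (L c)] {R : Type w} [Field R]

/-- The exterior product over all coordinates `c` of the zero-cycles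
`∑ i, ω ^ (s c * i) • (σ c) ^ i (p c)`, the sum over `0 ≤ i < m`. -/
noncomputable def tw (σ : ∀ c, L c ≃ₐ[k] L c) (m : ℕ) (ω : R) (s : K → ℕ)
    (p : ∀ c, Place k (L c)) : (∀ c, Place k (L c)) →₀ R :=
  ∑ i : K → Fin m, Finsupp.single (fun c => (p c).map (σ c ^ (i c : ℕ)))
    (ω ^ ∑ c, s c * (i c : ℕ))

end Tw

section Sym

variable {k : Type u} [Field k] {I : Type} [Fintype I] [DecidableEq I] {L : I → Type u}
  [∀ i, Field (L i)] [∀ i, Algebra k (L i)] {R : Type w} [Field R]

/-- The symmetrisation of `tw` in the `n i` coordinates on the curve with function field `L i`, for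
every `i`. -/
noncomputable def sym (σ : ∀ i, L i ≃ₐ[k] L i) (m : ℕ) (ω : R) (s n : I → ℕ)
    (p : (c : Σ i, Fin (n i)) → Place k (L c.1)) :
    ((c : Σ i, Fin (n i)) → Place k (L c.1)) →₀ R :=
  ∑ τ : ∀ i, Equiv.Perm (Fin (n i)),
    tw (fun c => σ c.1) m ω (fun c => s c.1) fun c => p ⟨c.1, τ c.1 c.2⟩

end Sym

section One

variable {k : Type u} [Field k] {L : Type u} [Field L] [Algebra k L] {R : Type w} [Field R]

/-- `tw` for one curve -/
noncomputable abbrev twc {K : Type} [Fintype K] [DecidableEq K] (σ : L ≃ₐ[k] L) (m : ℕ) (ω : R)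
    (s : K → ℕ) (p : K → Place k L) : (K → Place k L) →₀ R :=
  tw (L := fun _ : K => L) (fun _ => σ) m ω s p

/-- the `d` left coordinates and the right coordinate `x` -/
def emb (d : ℕ) (x : Fin d) : Fin (d + 1) ↪ Fin d ⊕ Fin d where
  toFun := Fin.lastCases (Sum.inr x) Sum.inl
  inj' := by
    intro i j
    induction i using Fin.lastCases with
    | last => induction j using Fin.lastCases with
      | last => simp
      | cast j => simp
    | cast i => induction j using Fin.lastCases with
      | last => simp
      | cast j => simp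

end One

section Product

variable {k : Type u} [Field k] {L : Type u} [Field L] [Algebra k L] {R : Type w} [Field R]

/-- The exterior product of two zero-cycles. -/
noncomputable def product {K K' : Type} (a : (K → Place k L) →₀ R) (b : (K' → Place k L) →₀ R) :
    (K ⊕ K' → Place k L) →₀ R :=
  a.sum fun p r => b.sum fun q t => Finsupp.single (Sum.elim p q) (r * t)

/-- The zero-cycle `a` on `C ^ d` is invariant under the permutations of the factors and under all
`σ ^ (i 1) × ⋯ × σ ^ (i d)` with `i 1 + ⋯ + i d` divisible by `m`. -/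
def Invariant (σ : L ≃ₐ[k] L) (m : ℕ) {d : ℕ} (a : (Fin d → Place k L) →₀ R) : Prop :=
  (∀ τ : Equiv.Perm (Fin d), a.mapDomain (fun p l => p (τ l)) = a) ∧
    ∀ i : Fin d → ℕ, m ∣ ∑ l, i l → a.mapDomain (fun p l => (p l).map (σ ^ i l)) = a

end Product

end Pool.Agent.ZVois
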